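import Pool.Agent.H28.Mon11

set_option autoImplicit false

namespace Pool.Agent.Results.MP_21db46_co.Monotone

open Polynomial

/-- A finite simplicial complex on the vertex set `Fin n`: contains the empty face and is closed
under taking subsets. -/
def IsComplex {n : ℕ} (Δ : Finset (Finset (Fin n))) : Prop :=
  ∅ ∈ Δ ∧ ∀ G ∈ Δ, ∀ H : Finset (Fin n), H ⊆ G → H ∈ Δ

/-- The largest number of vertices of a face, that is the dimension plus one. -/
def rk {n : ℕ} (Δ : Finset (Finset (Fin n))) : ℕ := Δ.sup Finset.card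

/-- The link of a face. -/
def link {n : ℕ} (Δ : Finset (Finset (Fin n))) (F : Finset (Fin n)) : Finset (Finset (Fin n)) :=
  (Finset.univ : Finset (Finset (Fin n))).filter fun G => Disjoint G F ∧ G ∪ F ∈ Δ

/-- The boundary map of the augmented oriented simplicial chain complex. -/
def bdry {k : Type} [Field k] {n : ℕ} (c : Finset (Fin n) → k) (T : Finset (Fin n)) : k :=
  ∑ v ∈ Tᶜ, (-1) ^ (T.filter (· < v)).card * c (insert v T)

/-- The reduced homology of `Δ` over `k` in dimension `j - 1` (faces with `j` vertices) vanishes. -/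
def Vanish (k : Type) [Field k] {n : ℕ} (Δ : Finset (Finset (Fin n))) (j : ℕ) : Prop :=
  ∀ c : Finset (Fin n) → k, (∀ T, c T ≠ 0 → T ∈ Δ ∧ T.card = j) → bdry c = 0 →
    ∃ b : Finset (Fin n) → k, (∀ T, b T ≠ 0 → T ∈ Δ ∧ T.card = j + 1) ∧ bdry b = c

/-- Cohen-Macaulay over `k`, by Reisner's criterion. -/
def CM (k : Type) [Field k] {n : ℕ} (Δ : Finset (Finset (Fin n))) : Prop :=
  ∀ F ∈ Δ, ∀ j < rk (link Δ F), Vanish k (link Δ F) j

/-- Buchsbaum over `k`: pure, and the links of nonempty faces are Cohen-Macaulay. -/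
def Buchsbaum (k : Type) [Field k] {n : ℕ} (Δ : Finset (Finset (Fin n))) : Prop :=
  (∀ F ∈ Δ, ∃ E ∈ Δ, F ⊆ E ∧ E.card = rk Δ) ∧ ∀ F ∈ Δ, F.Nonempty → CM k (link Δ F)

/-- The h-polynomial. -/
noncomputable def hPoly {n : ℕ} (Δ : Finset (Finset (Fin n))) : ℤ[X] :=
  ∑ i ∈ Finset.range (rk Δ + 1),
    C ((Δ.filter fun G => G.card = i).card : ℤ) * X ^ i * (1 - X) ^ (rk Δ - i)

/-- The geometric realization of the subcomplex of faces of `Γ` whose carrier lies in `F`. -/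
def restr {m n : ℕ} (Γ : Finset (Finset (Fin m))) (σ : Finset (Fin m) → Finset (Fin n))
    (F : Finset (Fin n)) : Set (Fin m → ℝ) :=
  {x | (∀ j, 0 ≤ x j) ∧ ∑ j, x j = 1 ∧ ∃ G ∈ Γ, σ G ⊆ F ∧ ∀ j, x j ≠ 0 → j ∈ G}

/-- `(Γ, σ)` is a topological subdivision of `Δ`. -/
def IsSubdivision {m n : ℕ} (Δ : Finset (Finset (Fin n))) (Γ : Finset (Finset (Fin m)))
    (σ : Finset (Fin m) → Finset (Fin n)) : Prop :=
  (∀ G ∈ Γ, σ G ∈ Δ) ∧
  (∀ F ∈ Δ, ∀ G ∈ Γ, σ G ⊆ F → ∀ H : Finset (Fin m), H ⊆ G → σ H ⊆ F) ∧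
  (∀ G ∈ Γ, σ G = ∅ ↔ G = ∅) ∧
  ∀ F ∈ Δ, F.Nonempty →
    ∃ φ : restr Γ σ F ≃ₜ Metric.closedBall (0 : EuclideanSpace ℝ (Fin (F.card - 1))) 1,
      ∀ G ∈ Γ, G.Nonempty → σ G ⊆ F →
        (σ G = F ↔ ∀ y : restr Γ σ F, (∀ j, 0 < y.1 j ↔ j ∈ G) →
          ‖(φ y : EuclideanSpace ℝ (Fin (F.card - 1)))‖ < 1)

open Pool.Agent.H28.Mon Pool.Agent.H43.Orb in
theorem result (k : Type) [Field k] (n m : ℕ) (Δ : Finset (Finset (Fin n)))
    (Γ : Finset (Finset (Fin m))) (σ : Finset (Fin m) → Finset (Fin n)) (hΔ : IsComplex Δ)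
    (hΓ : IsComplex Γ) (hB : Buchsbaum k Δ) (hS : IsSubdivision Δ Γ σ) (i : ℕ) :
    (hPoly Δ).coeff i ≤ (hPoly Γ).coeff i := by
  obtain ⟨s1, s2, s3, s4⟩ := hS
  have eb : ∀ c : Finset (Fin n) → k, bdry c = del k c := by
    intro c
    funext T
    rw [del_apply, bdry, Finset.sum_ite, Finset.sum_const_zero, zero_add]
    refine Finset.sum_congr (by ext; simp) fun v _ => by simp [eps]
  have dn : ∀ G H, G ⊆ H → H ∈ Δ → G ∈ Δ := fun G H a b => hΔ.2 H b G a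
  obtain ⟨c1, ⟨G0, c2, c3⟩, c4⟩ := core (k := k) (Δ := (· ∈ Δ)) (Γ := (· ∈ Γ)) (σ := σ) (rk Δ) dn
    (fun G H a b => hΓ.2 H b G a) (fun G H a b => s2 _ (s1 H b) H b le_rfl G a) s1 hΓ.1 s3
    (fun G a => Finset.le_sup (f := Finset.card) a)
    ((hB.1 ∅ hΔ.1).imp fun E h => ⟨h.1, h.2.2⟩) (fun F hF j hj => by
      by_cases h : F ∈ Δ
      swap
      · exact fex_empty (fun G a => h (dn _ _ a.2 a.1)) j
      obtain ⟨j, rfl⟩ : ∃ l, j = l + F.card := ⟨j - F.card, by ring⟩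
      refine fex_link dn F ?_
      rcases lt_or_ge j 0 with h0 | h0
      · exact fex_neg _ h0
      lift j to ℕ using h0
      have e : link (link Δ F) ∅ = link Δ F := by
        ext G
        simp [link]
      obtain ⟨E, a, b, c⟩ := hB.1 F h
      have h1 : (E \ F).card ≤ rk (link Δ F) := Finset.le_sup (f := Finset.card) (by
        simp [link, Finset.sdiff_disjoint, Finset.union_eq_left.2 b, a])
      rw [Finset.card_sdiff_of_subset b] at h1
      have h2 := hB.2 F h hF ∅ (by simpa [link]) j (by rw [e]; omega)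
      rw [e] at h2
      have dl : ∀ G H, G ⊆ H → Disjoint H F ∧ H ∪ F ∈ Δ → Disjoint G F ∧ G ∪ F ∈ Δ :=
        fun G H a b => ⟨b.1.mono_left a, dn _ _ (Finset.union_subset_union_left a) b.2⟩
      intro x hx e2
      obtain ⟨y, y1, y2⟩ := h2 x (fun T e => ⟨by simpa [link] using ((hx T).2 e).1,
        by exact_mod_cast ((hx T).2 e).2⟩) (by rw [eb, ← bd_down dl hx, e2])
      have hy : y ∈ C0 k (fun G => Disjoint G F ∧ G ∪ F ∈ Δ) (j + 1) := fun T =>
        ⟨trivial, fun e => ⟨by simpa [link] using (y1 T e).1, by exact_mod_cast (y1 T e).2⟩⟩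
      exact ⟨y, hy, by rw [bd_down dl hy, ← eb, y2]⟩) fun F a hF => by
      obtain ⟨φ, hφ⟩ := s4 F a hF
      refine ⟨φ, fun G b c y hy => ?_⟩
      have hG : G.Nonempty := by
        obtain ⟨v, -, hv⟩ := Finset.exists_ne_zero_of_sum_ne_zero (y.2.2.1.trans_ne one_ne_zero)
        exact ⟨v, (hy v).1 hv⟩
      have ps : ∀ z : Rl (Ph (· ∈ Γ) σ F), ∀ j, 0 < z.1 j ↔ z.1 j ≠ 0 := fun z j =>
        ⟨fun h => h.ne', fun h => (z.2.1 j).lt_of_ne' h⟩
      rw [hφ G b hG c]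
      exact ⟨fun h z hz => strong hG y.2 hy (fun A B h ⟨G, a, b, c⟩ => ⟨G, a, b, h.trans c⟩) φ h z
        fun j => (ps z j).symm.trans (hz j), fun h => h y fun j => (ps y j).trans (hy j)⟩
  have e : rk Γ = rk Δ := le_antisymm (Finset.sup_le c1) (c3 ▸ Finset.le_sup (f := Finset.card) c2)
  rw [hPoly, hPoly, e, coeff_h, coeff_h]
  split_ifs with h
  · have := c4 i h
    simp only [hn, ← Finset.filter_filter, Finset.filter_mem_eq_inter, Finset.univ_inter] at this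
    exact this
  · rfl

end Pool.Agent.Results.MP_21db46_co.Monotone
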